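import Pool.Agent.H360R2.RG.Stubs

/-! Task MLIM (helper360): limits of the mean values. -/

set_option autoImplicit false

open Complex Filter Topology Set MeasureTheory

namespace RGap

open SG (hh nn dd dl ord NZ)
open SP (RHs ZZ mu wt Mk Par Eb PS chi qq tt)
open LG (gK gh Zs bk lk fam prs nA yp ae EE Cn QT tm sm sm0 IsQ SF SM)

theorem MLIM_of (h1 : MEANS) (h2 : COMBS) : MLIM := by
  intro hRH P B0 hB r hr F q s hs hq A c hA hc δ hδ
  obtain ⟨C, T0, hC, hT0, hM⟩ := h1 hRH P B0 hB r F s hs A c hA hc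
  obtain ⟨hl1, hl2⟩ := h2 P B0 hB r hr F q s hs hq A c hA hc
  set S : ℝ := SF B0 F q with hS
  set Sg : ℝ := ∑ m ∈ Finset.Icc 2 B0, s m * (sm P A c m * SM B0 F q m) with hSg
  have hlog : Tendsto (fun T : ℝ => C / Real.log T) atTop (𝓝 0) :=
    tendsto_const_nhds.div_atTop Real.tendsto_log_atTop
  have ha : Tendsto (fun T : ℝ => C / Real.log T * (1 + |CnS P B0 r F s T 1|)) atTop (𝓝 0) := by
    have := hlog.mul ((tendsto_const_nhds (x := (1 : ℝ))).add hl1.abs)
    simpa using this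
  have hb1 : Tendsto (fun T : ℝ => C / Real.log T * (1 + |CnS P B0 r F s T 1|) +
      Real.sqrt (2 * Real.pi) * |CnS P B0 r F s T 1 - S ^ 2|) atTop (𝓝 0) := by
    have h3 : Tendsto (fun T : ℝ => |CnS P B0 r F s T 1 - S ^ 2|) atTop (𝓝 0) := by
      have := (hl1.sub (tendsto_const_nhds (x := S ^ 2))).abs
      simpa using this
    have := ha.add ((tendsto_const_nhds (x := Real.sqrt (2 * Real.pi))).mul h3)
    simpa using this
  have hb2 : Tendsto (fun T : ℝ => C / Real.log T * (1 + |CnS P B0 r F s T 1|) +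
      Real.sqrt (2 * Real.pi) * |(c * CnS P B0 r F s T 1 -
        (2 / Real.log T) * ∑' n : ℕ, lk A c T n * CnS P B0 r F s T n) -
        (c * S ^ 2 - 4 * r / Real.pi * (S * Sg))|) atTop (𝓝 0) := by
    have h3 : Tendsto (fun T : ℝ => |(c * CnS P B0 r F s T 1 -
        (2 / Real.log T) * ∑' n : ℕ, lk A c T n * CnS P B0 r F s T n) -
        (c * S ^ 2 - 4 * r / Real.pi * (S * Sg))|) atTop (𝓝 0) := by
      have := ((((tendsto_const_nhds (x := c)).mul hl1).sub hl2).sub
        (tendsto_const_nhds (x := c * S ^ 2 - 4 * r / Real.pi * (S * Sg)))).abs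
      simpa using this
    have := ha.add ((tendsto_const_nhds (x := Real.sqrt (2 * Real.pi))).mul h3)
    simpa using this
  have he1 := hb1.eventually_le_const hδ
  have he2 := hb2.eventually_le_const hδ
  obtain ⟨T1, hT1⟩ := eventually_atTop.1 (he1.and he2)
  refine ⟨max T0 T1, hT0.trans (le_max_left _ _), fun T hT t0 ht0 ht0' => ?_⟩
  obtain ⟨e1, e2⟩ := hT1 T ((le_max_right _ _).trans hT)
  obtain ⟨m1, m2⟩ := hM T ((le_max_left _ _).trans hT) t0 ht0 ht0'
  have hD : 0 ≤ dd P.κ T := by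
    unfold dd
    have : (0 : ℝ) ≤ T := by linarith [(le_max_left T0 T1).trans hT]
    positivity
  set D := dd P.κ T with hDdef
  set V1 := CnS P B0 r F s T 1 with hV1
  set V2 := (2 / Real.log T) * ∑' n : ℕ, lk A c T n * CnS P B0 r F s T n with hV2
  set s2 := Real.sqrt (2 * Real.pi) with hs2
  have hs20 : 0 ≤ s2 := Real.sqrt_nonneg _
  have hCD : C * D / Real.log T * (1 + |V1|) = C / Real.log T * (1 + |V1|) * D := by ring
  rw [hCD] at m1 m2
  constructor
  · set I1 := ∫ t in (T + 2 * Real.log T)..(2 * T - 2 * Real.log T),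
        wt t0 D t * ‖EES P B0 r F s T t‖ ^ 2
    have e3 : I1 - s2 * D * S ^ 2 = (I1 - s2 * D * V1) + s2 * D * (V1 - S ^ 2) := by ring
    rw [e3]
    refine (abs_add_le _ _).trans ?_
    rw [abs_mul (s2 * D), abs_of_nonneg (mul_nonneg hs20 hD)]
    calc |I1 - s2 * D * V1| + s2 * D * |V1 - S ^ 2|
        ≤ C / Real.log T * (1 + |V1|) * D + s2 * D * |V1 - S ^ 2| := by linarith
      _ = (C / Real.log T * (1 + |V1|) + s2 * |V1 - S ^ 2|) * D := by ring
      _ ≤ δ * D := mul_le_mul_of_nonneg_right e1 hD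
  · set I2 := ∫ t in (T + 2 * Real.log T)..(2 * T - 2 * Real.log T),
        wt t0 D t * ‖EES P B0 r F s T t‖ ^ 2 * Zs A c T t
    have e3 : I2 - s2 * D * (S * (c * S - 4 * r / Real.pi * Sg)) =
        (I2 - s2 * D * (c * V1 - V2)) +
          s2 * D * ((c * V1 - V2) - (c * S ^ 2 - 4 * r / Real.pi * (S * Sg))) := by ring
    rw [e3]
    refine (abs_add_le _ _).trans ?_
    rw [abs_mul (s2 * D), abs_of_nonneg (mul_nonneg hs20 hD)]
    calc |I2 - s2 * D * (c * V1 - V2)| +
          s2 * D * |(c * V1 - V2) - (c * S ^ 2 - 4 * r / Real.pi * (S * Sg))|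
        ≤ C / Real.log T * (1 + |V1|) * D +
          s2 * D * |(c * V1 - V2) - (c * S ^ 2 - 4 * r / Real.pi * (S * Sg))| := by linarith
      _ = (C / Real.log T * (1 + |V1|) +
          s2 * |(c * V1 - V2) - (c * S ^ 2 - 4 * r / Real.pi * (S * Sg))|) * D := by ring
      _ ≤ δ * D := mul_le_mul_of_nonneg_right e2 hD

end RGap
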